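import Pool.Agent.Work.MP_dcf6a6_tv.Interface

/-!
# Block LOC: smoothness of `D_+(h)` from its coordinate ring
-/

open CategoryTheory AlgebraicGeometry

namespace Pool.TVar.helper76

noncomputable section

lemma awayι_structMap {A : Type} [CommRing A] [Algebra ℂ A] (𝒜 : ℕ → Submodule ℂ A)
    [GradedAlgebra 𝒜] (h : A) (m : ℕ) (hh : h ∈ 𝒜 m) (hm : 0 < m) :
    Proj.awayι 𝒜 h hh hm ≫ structMap 𝒜 = Spec.map (CommRingCat.ofHom (strAway 𝒜 h)) := by
  rw [structMap, Proj.awayι_toSpecZero_assoc, ← Spec.map_comp, ← CommRingCat.ofHom_comp]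
  rfl

theorem stmt_LOC : Stmt_LOC := by
  intro A _ _ 𝒜 _ h m hh hm hs x hx
  refine ⟨Proj.basicOpen 𝒜 h, hx, ?_⟩
  have e : (Proj.basicOpen 𝒜 h).ι ≫ structMap 𝒜 =
      (Proj.basicOpenIsoSpec 𝒜 h hh hm).hom ≫ Spec.map (CommRingCat.ofHom (strAway 𝒜 h)) := by
    rw [← awayι_structMap 𝒜 h m hh hm, ← Proj.basicOpenIsoSpec_inv_ι, Category.assoc,
      Iso.hom_inv_id_assoc]
  rw [e]
  have hsm : Smooth (Spec.map (CommRingCat.ofHom (strAway 𝒜 h))) := by
    rw [HasRingHomProperty.Spec_iff (P := @Smooth)]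
    exact hs
  infer_instance

end

end Pool.TVar.helper76
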